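import Pool.Agent.Helper220.MG.Final

set_option autoImplicit false

/-!
Menger's axioms (M1)-(M4): one rival function for all `n ≥ 5` at once, with `ind - 1 ≤ d ≤ ind`,
which is monotone and satisfies the countable closed sum theorem on all separable metrizable
spaces, and which has compactifications preserving `d` and `ind` simultaneously. Stronger form of
the starting file `MengerConjectureFails`, whose construction is used.
-/

namespace Pool.Agent.Results.MP_0203cc_gt.OneFunction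

open Set Topology Filter TopologicalSpace Pool.MengerAx Pool.Agent.Helper220.MG

theorem ind_mono {X Y : Type} [TopologicalSpace X] [TopologicalSpace Y]
    [SecondCountableTopology Y] [MetrizableSpace Y] (e : X → Y) (he : IsEmbedding e) :
    ind X ≤ ind Y := by
  haveI := he.metrizableSpace
  haveI := he.secondCountableTopology
  apply le_sInf
  rintro a ⟨k, hk, rfl⟩
  exact ind_le_iff.2 ((indLT_iff.1 hk).of_embedding e he)

theorem cz_neg_one_le_ind (X : Type) [TopologicalSpace X] : cz (-1) ≤ ind X := by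
  apply le_sInf
  rintro a ⟨k, hk, rfl⟩
  exact cz_le.2 (by omega)

theorem ind_sum {X : Type} [TopologicalSpace X] [SecondCountableTopology X] [MetrizableSpace X]
    (F : ℕ → Set X) (hF : ∀ i, IsClosed (F i)) (hcov : ∀ x, ∃ i, x ∈ F i) {s : ExtInt}
    (h : ∀ i, ind ↥(F i) ≤ s) : ind X ≤ s := by
  have h0 : cz (-1) ≤ s := (cz_neg_one_le_ind _).trans (h 0)
  induction s using WithBot.recBotCoe with
  | bot =>
    exfalso
    rw [le_bot_iff] at h0
    exact absurd h0 (WithBot.coe_ne_bot)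
  | coe s =>
    induction s using WithTop.recTopCoe with
    | top => exact le_top
    | coe z =>
      have h1 : (-1 : ℤ) ≤ z := cz_le.1 h0
      obtain ⟨k, hk⟩ : ∃ k : ℕ, (k : ℤ) - 1 = z := ⟨(z + 1).toNat, by omega⟩
      subst hk
      exact ind_le.2 (ZC.sum F hF hcov (fun i => ind_le.1 (h i)))

theorem dd_mono {X Y : Type} [TopologicalSpace X] [TopologicalSpace Y]
    [SecondCountableTopology Y] [MetrizableSpace Y] (e : X → Y) (he : IsEmbedding e) :
    dd X ≤ dd Y := by
  haveI := he.metrizableSpace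
  haveI := he.secondCountableTopology
  by_cases h3 : ind Y = cz 2 ∧ AE PP Y
  · rw [dd_pos h3, dd_le_one]
    exact ⟨(ind_eq_two.1 h3.1).1.of_embedding e he, AE.of_embedding JNrPP.nr_PP e he h3.2⟩
  · rw [dd_neg h3]
    exact dd_le.trans (ind_mono e he)

theorem dd_sum {X : Type} [TopologicalSpace X] [SecondCountableTopology X] [MetrizableSpace X]
    (F : ℕ → Set X) (hF : ∀ i, IsClosed (F i)) (hcov : (⋃ i, F i) = univ) :
    dd X ≤ ⨆ i, dd ↥(F i) := by
  letI := metrizableSpaceMetric X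
  have hcov' : ∀ x, ∃ i, x ∈ F i := fun x => by
    have : x ∈ ⋃ i, F i := by rw [hcov]; trivial
    exact mem_iUnion.1 this
  have hle : ∀ i, dd ↥(F i) ≤ ⨆ i, dd ↥(F i) := fun i => le_iSup (fun i => dd ↥(F i)) i
  have hmain : (∀ i, ind ↥(F i) ≤ ⨆ i, dd ↥(F i)) → dd X ≤ ⨆ i, dd ↥(F i) := fun h1 =>
    dd_le.trans (ind_sum F hF hcov' h1)
  by_cases hall : ∀ i, ZC 3 ↥(F i) ∧ AE PP ↥(F i)
  · have hX1 : dd X ≤ cz 1 := dd_le_one.2 ⟨ZC.sum F hF hcov' (fun i => (hall i).1),
      ae_sum JNrPP.nr_PP F hF hcov' (fun i => (hall i).2)⟩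
    by_cases hs1 : cz 1 ≤ ⨆ i, dd ↥(F i)
    · exact hX1.trans hs1
    · apply hmain
      intro i
      have h2 : ¬ (ind ↥(F i) = cz 2 ∧ AE PP ↥(F i)) := by
        intro h3
        apply hs1
        rw [← dd_pos h3]
        exact hle i
      rw [← dd_neg h2]
      exact hle i
  · push Not at hall
    obtain ⟨i0, hi0⟩ := hall
    have h2 : cz 2 ≤ ⨆ i, dd ↥(F i) := by
      refine le_trans ?_ (hle i0)
      have h3 : ¬ (ind ↥(F i0) = cz 2 ∧ AE PP ↥(F i0)) := by
        rintro ⟨h4, h5⟩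
        exact hi0 (ind_eq_two.1 h4).1 h5
      rw [dd_neg h3]
      have h4 : ¬ ZC 2 ↥(F i0) := fun h5 => hi0 (h5.mono (by norm_num)) (ae_two h5)
      have := le_ind h4
      simpa using this
    apply hmain
    intro j
    by_cases h3 : ind ↥(F j) = cz 2 ∧ AE PP ↥(F j)
    · rw [h3.1]; exact h2
    · rw [← dd_neg h3]; exact hle j

theorem dd_comp {n : ℕ} {X : Type} [TopologicalSpace X] (hX : InU n X)
    (h3 : ind X = cz 2 ∧ AE PP X) :
    ∃ (K : Type) (_ : TopologicalSpace K), CompactSpace K ∧ InU 5 K ∧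
      (∃ e : X → K, IsEmbedding e ∧ DenseRange e) ∧ dd K = dd X ∧ ind K = ind X := by
  have hm := InU.metrizable hX
  have hs := InU.secondCountable hX
  obtain ⟨hz3, hz2⟩ := ind_eq_two.1 h3.1
  obtain ⟨Y, tY, hYc, hYm, hYf, hYa, j, hj, hjd⟩ := compactify JNrPP.nr_PP hX
    (fc_of_zc hz3) h3.2
  obtain ⟨f, hf, _⟩ := embed_nob Y hYf
  have hYU : InU 5 Y := ⟨f, hf⟩
  have hYs := InU.secondCountable hYU
  have hY2 : ind Y = cz 2 := ind_eq_two.2 ⟨zc_of_fc hYf, fun h4 => hz2 (h4.of_embedding j hj)⟩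
  exact ⟨Y, tY, hYc, hYU, ⟨j, hj, hjd⟩, by rw [dd_pos ⟨hY2, hYa⟩, dd_pos h3], by rw [hY2, h3.1]⟩

theorem result :
    ∃ d : (X : Type) → [TopologicalSpace X] → ExtInt,
      -- (1) `d` differs from `ind` at most at spaces with `ind = 2`, and then `d = 1`
      (∀ (X : Type) [TopologicalSpace X], d X = ind X ∨
        (d X = ((1 : ℤ) : WithTop ℤ) ∧ ind X = ((2 : ℤ) : WithTop ℤ))) ∧
      -- (2) `d` is monotone under embeddings on all separable metrizable spaces
      (∀ (X Y : Type) [TopologicalSpace X] [TopologicalSpace Y] [SecondCountableTopology Y]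
        [MetrizableSpace Y] (e : X → Y), IsEmbedding e → d X ≤ d Y) ∧
      -- (3) the countable closed sum theorem on all separable metrizable spaces
      (∀ (X : Type) [TopologicalSpace X] [SecondCountableTopology X] [MetrizableSpace X]
        (F : ℕ → Set X), (∀ i, IsClosed (F i)) → (⋃ i, F i) = univ → d X ≤ ⨆ i, d ↥(F i)) ∧
      -- (4) a space of some `U_n` at which `d` and `ind` differ has a compactification in `U_5`
      -- preserving both
      (∀ (n : ℕ) (X : Type) [TopologicalSpace X], InU n X → d X ≠ ind X →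
        ∃ (K : Type) (_ : TopologicalSpace K), CompactSpace K ∧ InU 5 K ∧
          (∃ e : X → K, IsEmbedding e ∧ DenseRange e) ∧ d K = d X ∧ ind K = ind X) ∧
      -- (5) for every `n ≥ 5`: if `ind` satisfies (M1)-(M4) on `U_n`, so does `d`, and then
      -- every space of `U_n` has a compactification in `U_n` preserving both `d` and `ind`
      (∀ n : ℕ, 5 ≤ n → Axioms n (fun X _ => ind X) → Axioms n d ∧
        ∀ (X : Type) [TopologicalSpace X], InU n X →
          ∃ (K : Type) (_ : TopologicalSpace K), CompactSpace K ∧ InU n K ∧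
            (∃ e : X → K, IsEmbedding e ∧ DenseRange e) ∧ d K = d X ∧ ind K = ind X) ∧
      -- (6) `d ≠ ind` at a compact space of `U_5`
      (∃ (Y : Type) (_ : TopologicalSpace Y), CompactSpace Y ∧ InU 5 Y ∧
        d Y = ((1 : ℤ) : WithTop ℤ) ∧ ind Y = ((2 : ℤ) : WithTop ℤ)) ∧
      -- (7) hence Menger's conjecture fails for every `n ≥ 5`
      (∀ n : ℕ, 5 ≤ n → ¬ Conjecture n) := by
  refine ⟨fun X _ => dd X, ?_, ?_, ?_, ?_, ?_, ?_, fun n hn => not_conjecture hn⟩
  · intro X _
    by_cases h : ind X = cz 2 ∧ AE PP X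
    · exact Or.inr ⟨dd_pos h, h.1⟩
    · exact Or.inl (dd_neg h)
  · intro X Y _ _ _ _ e he
    exact dd_mono e he
  · intro X _ _ _ F hF hcov
    exact dd_sum F hF hcov
  · intro n X _ hX hne
    have h3 : ind X = cz 2 ∧ AE PP X := by
      by_contra h
      exact hne (dd_neg h)
    exact dd_comp hX h3
  · intro n hn h
    refine ⟨dd_axioms hn h, ?_⟩
    intro X _ hX
    by_cases h3 : ind X = cz 2 ∧ AE PP X
    · obtain ⟨K, tK, h1, h2, h4⟩ := dd_comp hX h3
      exact ⟨K, tK, h1, InU.mono hn h2, h4⟩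
    · obtain ⟨K, tK, hKc, hKU, ⟨e, he, hed⟩, hKd⟩ := h.m4 X hX
      have hKd' : ind K = ind X := hKd
      have hKm := InU.metrizable hKU
      have hKs := InU.secondCountable hKU
      refine ⟨K, tK, hKc, hKU, ⟨e, he, hed⟩, ?_, hKd'⟩
      refine le_antisymm ?_ (dd_mono e he)
      show dd K ≤ dd X
      rw [dd_neg h3, ← hKd']
      exact dd_le
  · obtain ⟨Y, tY, hYc, hYm, hYf, hYa, hYs⟩ := exotic
    obtain ⟨f, hf, _⟩ := embed_nob Y hYf
    have hYU : InU 5 Y := ⟨f, hf⟩
    have hsc := InU.secondCountable hYU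
    have h5 : ind Y = cz 2 := ind_eq_two.2 ⟨zc_of_fc hYf, fun h6 => hYs (sph_ae (m := 1) h6)⟩
    exact ⟨Y, tY, hYc, hYU, dd_pos ⟨h5, hYa⟩, h5⟩

end Pool.Agent.Results.MP_0203cc_gt.OneFunction
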